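import Pool.Agent.Lib_helper15.C10.Defs3

/-!
# C10, module ADJ: adjoint facts for the power bounded case

Paper proof: notes of MP_5ac32f_an, topic C10-PB.
-/

set_option autoImplicit false

universe u

namespace Pool.Agent.C10

open Filter Set
open scoped Topology InnerProductSpace ComplexConjugate

section adj

variable {H : Type u} [NormedAddCommGroup H] [InnerProductSpace ℂ H] [CompleteSpace H]

theorem adjH_pow (T : H →L[ℂ] H) (n : ℕ) :
    ContinuousLinearMap.adjoint (T ^ n) = ContinuousLinearMap.adjoint T ^ n := by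
  have := star_pow T n
  simpa only [ContinuousLinearMap.star_eq_adjoint] using this

theorem adjH_toDual_comp (T : H →L[ℂ] H) (n : ℕ) (y : H) :
    (InnerProductSpace.toDual ℂ H y).comp (T ^ n) =
      InnerProductSpace.toDual ℂ H ((ContinuousLinearMap.adjoint T ^ n) y) := by
  ext x
  rw [← adjH_pow]
  simp [ContinuousLinearMap.adjoint_inner_left]

theorem adjH_costable_iff (T : H →L[ℂ] H) :
    CoStable T ↔ Stable (ContinuousLinearMap.adjoint T) := by
  constructor
  · intro h y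
    have h1 := h (InnerProductSpace.toDual ℂ H y)
    simp only [adjH_toDual_comp] at h1
    rw [tendsto_zero_iff_norm_tendsto_zero] at h1 ⊢
    refine h1.congr fun n => ?_
    exact (InnerProductSpace.toDual ℂ H).norm_map _
  · intro h φ
    obtain ⟨y, rfl⟩ := (InnerProductSpace.toDual ℂ H).surjective φ
    simp only [adjH_toDual_comp]
    have h1 := h y
    rw [tendsto_zero_iff_norm_tendsto_zero] at h1 ⊢
    refine h1.congr fun n => ?_
    exact ((InnerProductSpace.toDual ℂ H).norm_map _).symm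

theorem adjH_stable_iff (T : H →L[ℂ] H) :
    Stable T ↔ CoStable (ContinuousLinearMap.adjoint T) := by
  rw [adjH_costable_iff, ContinuousLinearMap.adjoint_adjoint]

theorem adjH_norm_pow (T : H →L[ℂ] H) (n : ℕ) :
    ‖ContinuousLinearMap.adjoint T ^ n‖ = ‖T ^ n‖ := by
  rw [← adjH_pow]
  exact (ContinuousLinearMap.adjoint (𝕜 := ℂ) (E := H) (F := H)).norm_map _

theorem adjH_hyper (T : H →L[ℂ] H) (h : HasHyper (ContinuousLinearMap.adjoint T)) :
    HasHyper T := by
  obtain ⟨M, hMc, hM0, hM1, hM⟩ := h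
  have : CompleteSpace M := hMc.completeSpace_coe
  refine ⟨Mᗮ, Submodule.isClosed_orthogonal M, ?_, ?_, ?_⟩
  · intro h0
    apply hM1
    rwa [Submodule.orthogonal_eq_bot_iff] at h0
  · intro h1
    apply hM0
    rwa [Submodule.orthogonal_eq_top_iff] at h1
  · intro A hA x hx
    rw [Submodule.mem_orthogonal] at hx ⊢
    intro m hm
    rw [← ContinuousLinearMap.adjoint_inner_left]
    apply hx
    apply hM _ _ m hm
    have := congrArg (fun B : H →L[ℂ] H => star B) hA
    simp only [star_mul, ContinuousLinearMap.star_eq_adjoint] at this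
    exact this.symm

/-- `f^*(z) = conj (f (conj z))` -/
noncomputable def fsC (f : C(Circle, ℂ)) : C(Circle, ℂ) :=
  ⟨fun z => conj (f z⁻¹), by fun_prop⟩

theorem fsC_norm (f : C(Circle, ℂ)) : ‖fsC f‖ ≤ ‖f‖ := by
  rw [ContinuousMap.norm_le _ (norm_nonneg _)]
  intro z
  simp only [fsC, ContinuousMap.coe_mk, RCLike.norm_conj]
  exact f.norm_coe_le_norm _

theorem fsC_one : fsC 1 = 1 := by
  ext z
  simp [fsC]

theorem fsC_zc (f : C(Circle, ℂ)) : fsC (zc * f) = zc * fsC f := by
  ext z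
  have h : conj (((z⁻¹ : Circle) : ℂ)) = (z : ℂ) := by
    rw [Circle.coe_inv_eq_conj, Complex.conj_conj]
  simp only [fsC, zc, ContinuousMap.coe_mk, ContinuousMap.mul_apply, map_mul, h]

theorem adjH_psi (T : H →L[ℂ] H)
    (h : ∃ Φ : C(Circle, ℂ) →L[ℂ] (H →L[ℂ] ℂ),
        Inter (ContinuousLinearMap.adjoint T) Φ ∧ Φ 1 ≠ 0) :
    ∃ Ψ : C(Circle, ℂ) →L[ℂ] ((H →L[ℂ] ℂ) →L[ℂ] ℂ), Inter (tr T) Ψ ∧ Ψ 1 ≠ 0 := by
  obtain ⟨Φ, hΦ, hΦ1⟩ := h
  let B : C(Circle, ℂ) →ₗ[ℂ] (H →L[ℂ] ℂ) →ₗ[ℂ] ℂ :=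
    LinearMap.mk₂ ℂ (fun f φ => conj (Φ (fsC f) ((InnerProductSpace.toDual ℂ H).symm φ)))
      (by
        intro f g φ
        have : fsC (f + g) = fsC f + fsC g := by ext z; simp [fsC]
        simp [this])
      (by
        intro c f φ
        have : fsC (c • f) = (conj c) • fsC f := by ext z; simp [fsC]
        simp [this])
      (by
        intro f φ ψ
        simp)
      (by
        intro c f φ
        rw [LinearIsometryEquiv.map_smulₛₗ]
        simp)
  have hB : ∀ f φ, ‖B f φ‖ ≤ ‖Φ‖ * ‖f‖ * ‖φ‖ := by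
    intro f φ
    simp only [B, LinearMap.mk₂_apply, RCLike.norm_conj]
    calc ‖Φ (fsC f) ((InnerProductSpace.toDual ℂ H).symm φ)‖
        ≤ ‖Φ (fsC f)‖ * ‖(InnerProductSpace.toDual ℂ H).symm φ‖ :=
          ContinuousLinearMap.le_opNorm _ _
      _ ≤ (‖Φ‖ * ‖fsC f‖) * ‖φ‖ := by
          rw [LinearIsometryEquiv.norm_map]
          gcongr
          exact Φ.le_opNorm _
      _ ≤ ‖Φ‖ * ‖f‖ * ‖φ‖ := by
          gcongr
          exact fsC_norm f
  refine ⟨LinearMap.mkContinuous₂ B ‖Φ‖ hB, ?_, ?_⟩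
  · intro f φ
    simp only [LinearMap.mkContinuous₂_apply, B, LinearMap.mk₂_apply]
    rw [fsC_zc, hΦ]
    congr 2
    obtain ⟨y, rfl⟩ := (InnerProductSpace.toDual ℂ H).surjective φ
    have h1 : tr T (InnerProductSpace.toDual ℂ H y) =
        InnerProductSpace.toDual ℂ H (ContinuousLinearMap.adjoint T y) := by
      have := adjH_toDual_comp T 1 y
      simpa [tr] using this
    rw [h1]
    simp
  · intro h0
    apply hΦ1
    ext y
    have := congrArg (fun F : (H →L[ℂ] ℂ) →L[ℂ] ℂ => F (InnerProductSpace.toDual ℂ H y)) h0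
    simp only [LinearMap.mkContinuous₂_apply, B, LinearMap.mk₂_apply, fsC_one,
      LinearIsometryEquiv.symm_apply_apply] at this
    simpa using this

end adj

theorem modADJ : ModADJ.{u} := by
  intro H _ _ _ T
  exact ⟨adjH_costable_iff T, adjH_stable_iff T,
    fun M hM n => (adjH_norm_pow T n).le.trans (hM n), adjH_hyper T, adjH_psi T⟩

end Pool.Agent.C10
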