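import Pool.Agent.Lib_helper15.C10.Defs

/-!
# Module C2: the operators `exp(-s P(T))`
-/

set_option autoImplicit false

universe u

namespace Pool.Agent.C10

open Filter Set
open scoped Topology

namespace C2

/-- partial sums of the exponential series of a polynomial -/
noncomputable def eN (Q : Polynomial ℂ) (N : ℕ) : Polynomial ℂ :=
  ∑ k ∈ Finset.range N, Polynomial.C ((k.factorial : ℂ)⁻¹) * Q ^ k

lemma eval_eN (Q : Polynomial ℂ) (N : ℕ) (z : ℂ) :
    (eN Q N).eval z = ∑ k ∈ Finset.range N, (Q.eval z) ^ k / k.factorial := by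
  unfold eN
  rw [Polynomial.eval_finsetSum]
  refine Finset.sum_congr rfl fun k _ => ?_
  rw [Polynomial.eval_mul, Polynomial.eval_C, Polynomial.eval_pow]
  ring

lemma aeval_eN {A : Type*} [Ring A] [Algebra ℂ A] (a : A) (Q : Polynomial ℂ) (N : ℕ) :
    Polynomial.aeval a (eN Q N) =
      ∑ k ∈ Finset.range N, ((k.factorial : ℂ)⁻¹) • (Polynomial.aeval a Q) ^ k := by
  unfold eN
  rw [map_sum]
  refine Finset.sum_congr rfl fun k _ => ?_
  rw [map_mul, Polynomial.aeval_C, map_pow, Algebra.smul_def]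

/-- uniform convergence of the partial sums on the disc -/
lemma unif (Q : Polynomial ℂ) (ε : ℝ) (hε : 0 < ε) :
    ∀ᶠ N : ℕ in atTop, ∀ z : ℂ, ‖z‖ ≤ 1 → ‖Complex.exp (Q.eval z) - (eN Q N).eval z‖ ≤ ε := by
  obtain ⟨M, hM⟩ := (isCompact_closedBall (0 : ℂ) 1).exists_bound_of_continuousOn
    (f := fun z => Q.eval z) Q.continuous.continuousOn
  have hM' : ∀ z : ℂ, ‖z‖ ≤ 1 → ‖Q.eval z‖ ≤ M := fun z hz => hM z (by simpa using hz)
  have hM0 : 0 ≤ M := (norm_nonneg _).trans (hM' 0 (by simp))
  have h1 : ∀ᶠ N : ℕ in atTop, M ^ N / N.factorial * 2 ≤ ε := by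
    have h2 : Tendsto (fun N : ℕ => M ^ N / N.factorial * 2) atTop (𝓝 (0 * 2)) :=
      (FloorSemiring.tendsto_pow_div_factorial_atTop M).mul_const 2
    rw [zero_mul] at h2
    exact (h2.eventually_lt_const hε).mono fun _ h => h.le
  have h3 : ∀ᶠ N : ℕ in atTop, M / (N.succ : ℝ) ≤ 1 / 2 := by
    filter_upwards [eventually_ge_atTop ⌈2 * M⌉₊] with N hN
    have h4 : 2 * M ≤ N := (Nat.le_ceil _).trans (by exact_mod_cast hN)
    rw [div_le_iff₀ (by positivity)]
    push_cast
    linarith
  filter_upwards [h1, h3] with N hN1 hN2 z hz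
  rw [eval_eN]
  have h5 := hM' z hz
  calc ‖Complex.exp (Q.eval z) - ∑ k ∈ Finset.range N, (Q.eval z) ^ k / k.factorial‖
      ≤ ‖Q.eval z‖ ^ N / N.factorial * 2 := by
        refine Complex.exp_bound' (le_trans ?_ hN2)
        exact div_le_div_of_nonneg_right h5 (by positivity)
    _ ≤ M ^ N / N.factorial * 2 := by
        gcongr
    _ ≤ ε := hN1

lemma tendsto_op {A : Type*} [NormedRing A] [NormedAlgebra ℂ A] [CompleteSpace A] (a : A)
    (Q : Polynomial ℂ) :
    Tendsto (fun N => Polynomial.aeval a (eN Q N)) atTop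
      (𝓝 (NormedSpace.exp (Polynomial.aeval a Q))) := by
  have := (NormedSpace.exp_series_hasSum_exp' (𝕂 := ℂ) (Polynomial.aeval a Q)).tendsto_sum_nat
  refine this.congr fun N => ?_
  rw [aeval_eN]

lemma aeval_zc_apply (p : Polynomial ℂ) (z : Circle) :
    (Polynomial.aeval zc p) z = p.eval (z : ℂ) := by
  have h : (Polynomial.aeval zc p) z = Polynomial.aeval (zc z) p :=
    (Polynomial.aeval_algHom_apply (ContinuousMap.evalAlgHom ℂ ℂ z) zc p).symm
  have hz : zc z = (z : ℂ) := rfl
  rw [h, hz, Polynomial.coe_aeval_eq_eval]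

/-- the partial sums converge in `C(Circle)` -/
lemma tendsto_fun (Q : Polynomial ℂ) :
    Tendsto (fun N => Polynomial.aeval zc (eN Q N)) atTop (𝓝 (ex (Polynomial.aeval zc Q))) := by
  rw [Metric.tendsto_atTop']
  intro ε hε
  obtain ⟨N0, hN0⟩ := eventually_atTop.1 (unif Q (ε / 2) (by positivity))
  refine ⟨N0, fun N hN => ?_⟩
  rw [dist_eq_norm]
  refine lt_of_le_of_lt ?_ (half_lt_self hε)
  rw [ContinuousMap.norm_le _ (by positivity)]
  intro z
  have h1 := hN0 N hN.le (z : ℂ) (le_of_eq (Circle.norm_coe z))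
  have h2 : (ex (Polynomial.aeval zc Q)) z = Complex.exp (Q.eval (z : ℂ)) := by
    rw [← aeval_zc_apply]
    rfl
  rw [ContinuousMap.sub_apply, aeval_zc_apply, norm_sub_rev, h2]
  exact h1

lemma inter_pow {E : Type*} [NormedAddCommGroup E] [NormedSpace ℂ E] {T : E →L[ℂ] E}
    {Φ : C(Circle, ℂ) →L[ℂ] (E →L[ℂ] ℂ)} (h : Inter T Φ) (n : ℕ) :
    ∀ (f : C(Circle, ℂ)) (x : E), Φ (zc ^ n * f) x = Φ f ((T ^ n) x) := by
  induction n with
  | zero => intro f x; simp
  | succ n ih =>
    intro f x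
    have e1 : zc ^ (n + 1) * f = zc * (zc ^ n * f) := by ring
    rw [e1, h, ih, pow_succ]
    rfl

lemma inter_poly {E : Type*} [NormedAddCommGroup E] [NormedSpace ℂ E] {T : E →L[ℂ] E}
    {Φ : C(Circle, ℂ) →L[ℂ] (E →L[ℂ] ℂ)} (h : Inter T Φ) (p : Polynomial ℂ)
    (f : C(Circle, ℂ)) (x : E) :
    Φ (Polynomial.aeval zc p * f) x = Φ f (Polynomial.aeval T p x) := by
  induction p using Polynomial.induction_on' with
  | add p q hp hq =>
    rw [map_add, map_add, add_mul, map_add, add_apply, hp, hq,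
      add_apply, map_add]
  | monomial n c =>
    rw [Polynomial.aeval_monomial, Polynomial.aeval_monomial, ← Algebra.smul_def,
      ← Algebra.smul_def, smul_mul_assoc, map_smul, smul_apply,
      inter_pow h, smul_apply, map_smul]

lemma commute_aeval {A : Type*} [Ring A] [Algebra ℂ A] {a b : A} (h : Commute b a)
    (p : Polynomial ℂ) : Commute b (Polynomial.aeval a p) := by
  induction p using Polynomial.induction_on' with
  | add p q hp hq => rw [map_add]; exact hp.add_right hq
  | monomial n c =>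
    rw [Polynomial.aeval_monomial]
    exact (show Commute b (algebraMap ℂ A c) from (Algebra.commutes c b).symm).mul_right
      (h.pow_right n)

end C2

open C2 in
theorem modC2 : ModC2.{u} := by
  intro E _ _ _ T C hT P hP s hs
  set Q : Polynomial ℂ := -(Polynomial.C (s : ℂ) * P) with hQ
  have hQr : ∀ z : ℂ, ‖z‖ ≤ 1 → (Q.eval z).re ≤ 0 := by
    intro z hz
    have h1 := hP z hz
    simp only [hQ, Polynomial.eval_neg, Polynomial.eval_mul, Polynomial.eval_C, Complex.neg_re,
      Complex.mul_re, Complex.ofReal_re, Complex.ofReal_im, zero_mul, sub_zero]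
    have := mul_nonneg hs h1
    linarith
  have hQz : Polynomial.aeval zc Q = -((s : ℂ) • Polynomial.aeval zc P) := by
    rw [hQ, map_neg, map_mul, Polynomial.aeval_C, Algebra.smul_def]
  have hC0 : 0 ≤ C := by
    have := hT 1 1 (fun z _ => by simp)
    rw [mul_one] at this
    exact (norm_nonneg _).trans this
  refine ⟨NormedSpace.exp (Polynomial.aeval T Q), ?_, ?_, ?_⟩
  · -- norm bound
    refine le_of_forall_pos_le_add fun ε hε => ?_
    have hδ : 0 < ε / (C + 1) := by positivity
    have h1 : ∀ᶠ N : ℕ in atTop, ‖Polynomial.aeval T (eN Q N)‖ ≤ C + ε := by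
      filter_upwards [unif Q (ε / (C + 1)) hδ] with N hN
      have h2 := hT (eN Q N) (1 + ε / (C + 1)) (fun z hz => by
        have h3 := hN z hz
        have h4 : ‖Complex.exp (Q.eval z)‖ ≤ 1 := by
          rw [Complex.norm_exp]
          exact Real.exp_le_one_iff.2 (hQr z hz)
        calc ‖(eN Q N).eval z‖ = ‖Complex.exp (Q.eval z) -
              (Complex.exp (Q.eval z) - (eN Q N).eval z)‖ := by rw [sub_sub_cancel]
          _ ≤ ‖Complex.exp (Q.eval z)‖ + ‖Complex.exp (Q.eval z) - (eN Q N).eval z‖ :=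
              norm_sub_le _ _
          _ ≤ 1 + ε / (C + 1) := add_le_add h4 h3)
      refine h2.trans ?_
      rw [mul_add, mul_one]
      have h5 : C * (ε / (C + 1)) ≤ ε := by
        rw [mul_div_assoc', div_le_iff₀ (by positivity)]
        nlinarith
      linarith
    exact le_of_tendsto ((tendsto_op T Q).norm) h1
  · intro A hA
    exact (Commute.exp_right (commute_aeval (show Commute A T from hA) Q)).eq
  · intro Φ hΦ f x
    have h1 : Tendsto (fun N => Φ f (Polynomial.aeval T (eN Q N) x)) atTop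
        (𝓝 (Φ f (NormedSpace.exp (Polynomial.aeval T Q) x))) := by
      have h2 : Continuous (fun A : E →L[ℂ] E => Φ f (A x)) := by fun_prop
      exact (h2.tendsto _).comp (tendsto_op T Q)
    have h3 : Tendsto (fun N => Φ (Polynomial.aeval zc (eN Q N) * f) x) atTop
        (𝓝 (Φ (ex (Polynomial.aeval zc Q) * f) x)) := by
      have h4 : Continuous (fun g : C(Circle, ℂ) => Φ (g * f) x) := by fun_prop
      exact (h4.tendsto _).comp (tendsto_fun Q)
    have h5 : (fun N => Φ f (Polynomial.aeval T (eN Q N) x)) =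
        fun N => Φ (Polynomial.aeval zc (eN Q N) * f) x :=
      funext fun N => (inter_poly hΦ _ f x).symm
    rw [h5] at h1
    rw [← hQz]
    exact tendsto_nhds_unique h1 h3

end Pool.Agent.C10
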